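import Mathlib

/-!
Graphs without `K_{r,r}`: the number of the tuples of blocks (members of families of vertex sets)
which are contained in one neighbourhood.
-/

set_option autoImplicit false

namespace Pool.Agent.K7.H42.KR

open Finset Classical

variable {V : Type} [Fintype V]

/-- The neighbours of a vertex. -/
noncomputable def neighbours (G : SimpleGraph V) (x : V) : Finset V := univ.filter (fun y => G.Adj x y)

theorem mem_neighbours {G : SimpleGraph V} {x y : V} : y ∈ neighbours G x ↔ G.Adj x y := by
  simp [neighbours]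

/-- The number of the members of the family which are contained in the neighbourhood of `x`. -/
noncomputable def blocksIn (G : SimpleGraph V) (F : Finset (Finset V)) (x : V) : ℕ :=
  (F.filter (fun B => B ⊆ neighbours G x)).card

theorem contained_of_sets {r : ℕ} {G : SimpleGraph V} (S T : Finset V) (hS : r ≤ S.card)
    (hT : r ≤ T.card) (h : ∀ x ∈ S, ∀ y ∈ T, G.Adj x y) :
    (completeBipartiteGraph (Fin r) (Fin r)).IsContained G := by
  obtain ⟨f⟩ : Nonempty (Fin r ↪ S) := by
    apply Function.Embedding.nonempty_of_card_le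
    simpa using hS
  obtain ⟨g⟩ : Nonempty (Fin r ↪ T) := by
    apply Function.Embedding.nonempty_of_card_le
    simpa using hT
  refine ⟨⟨⟨fun v => Sum.elim (fun i => (f i : V)) (fun i => (g i : V)) v, ?_⟩, ?_⟩⟩
  · intro v w hvw
    rcases v with v | v <;> rcases w with w | w
    · simp [completeBipartiteGraph] at hvw
    · exact h _ (f v).2 _ (g w).2
    · exact (h _ (f w).2 _ (g v).2).symm
    · simp [completeBipartiteGraph] at hvw
  · intro v w hvw
    rcases v with v | v <;> rcases w with w | w
    · have : f v = f w := Subtype.ext hvw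
      rw [f.injective this]
    · exact absurd (show (f v : V) = g w from hvw) (h _ (f v).2 _ (g w).2).ne
    · exact absurd (show (g v : V) = f w from hvw).symm (h _ (f w).2 _ (g v).2).ne
    · have : g v = g w := Subtype.ext hvw
      rw [g.injective this]

theorem common_lt {r : ℕ} {G : SimpleGraph V}
    (hfree : (completeBipartiteGraph (Fin r) (Fin r)).Free G) (T : Finset V) (hT : r ≤ T.card) :
    (univ.filter (fun x => T ⊆ neighbours G x)).card < r := by
  by_contra hcon
  push Not at hcon
  apply hfree
  refine contained_of_sets _ T hcon hT ?_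
  intro x hx y hy
  exact mem_neighbours.1 ((Finset.mem_filter.1 hx).2 hy)

section Families
variable {A : Type} [Fintype A]

theorem meet_count {F : Finset (Finset V)} {Δ : ℕ} (hΔ : ∀ v, (F.filter (fun B => v ∈ B)).card ≤ Δ)
    (s : Finset V) : (F.filter (fun B => ¬ Disjoint s B)).card ≤ s.card * Δ := by
  have h1 : F.filter (fun B => ¬ Disjoint s B) ⊆ s.biUnion (fun v => F.filter (fun B => v ∈ B)) := by
    intro B hB
    obtain ⟨hB, hd⟩ := Finset.mem_filter.1 hB
    obtain ⟨v, hv, hv'⟩ := Finset.not_disjoint_iff.1 hd
    exact Finset.mem_biUnion.2 ⟨v, hv, Finset.mem_filter.2 ⟨hB, hv'⟩⟩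
  calc (F.filter (fun B => ¬ Disjoint s B)).card ≤
      (s.biUnion (fun v => F.filter (fun B => v ∈ B))).card := Finset.card_le_card h1
    _ ≤ ∑ v ∈ s, (F.filter (fun B => v ∈ B)).card := Finset.card_biUnion_le
    _ ≤ ∑ v ∈ s, Δ := Finset.sum_le_sum fun v _ => hΔ v
    _ = s.card * Δ := by rw [Finset.sum_const, smul_eq_mul]

theorem bad_pair (F : A → Finset (Finset V)) (j Δ : A → ℕ)
    (hj : ∀ a, ∀ B ∈ F a, B.card = j a)
    (hΔ : ∀ a v, ((F a).filter (fun B => v ∈ B)).card ≤ Δ a)
    (hF : ∀ a, (F a).card ≤ Fintype.card V * Δ a) {a b : A} (hab : a ≠ b) :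
    Fintype.card V * ((Fintype.piFinset F).filter (fun t => ¬ Disjoint (t a) (t b))).card ≤
      j a * ∏ c, (Fintype.card V * Δ c) := by
  rcases (F b).eq_empty_or_nonempty with he | ⟨B0, hB0⟩
  · have : Fintype.piFinset F = ∅ := by
      rw [Finset.eq_empty_iff_forall_notMem]
      intro t ht
      have := Fintype.mem_piFinset.1 ht b
      rw [he] at this
      simp at this
    rw [this]; simp
  have hcard := Finset.card_le_mul_card_image_of_maps_to
    (s := (Fintype.piFinset F).filter (fun t => ¬ Disjoint (t a) (t b)))
    (t := Fintype.piFinset (Function.update F b {B0}))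
    (f := fun t => Function.update t b B0) (by
      intro t ht
      have ht' := Fintype.mem_piFinset.1 (Finset.mem_filter.1 ht).1
      rw [Fintype.mem_piFinset]
      intro c
      by_cases hc : c = b
      · subst hc; simp
      · rw [Function.update_of_ne hc, Function.update_of_ne hc]; exact ht' c)
    (j a * Δ b) (by
      intro s hs
      have hs' := Fintype.mem_piFinset.1 hs
      have hsa : s a ∈ F a := by
        have := hs' a
        rwa [Function.update_of_ne hab] at this
      calc _ ≤ ((F b).filter (fun B => ¬ Disjoint (s a) B)).card := by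
            apply Finset.card_le_card_of_injOn (fun t => t b)
            · intro t ht
              rw [Finset.mem_coe, Finset.mem_filter, Finset.mem_filter] at ht
              obtain ⟨⟨ht1, ht2⟩, ht3⟩ := ht
              rw [Finset.mem_coe, Finset.mem_filter]
              refine ⟨Fintype.mem_piFinset.1 ht1 b, ?_⟩
              have : s a = t a := by rw [← ht3, Function.update_of_ne hab]
              rw [this]; exact ht2
            · intro t ht t' ht' htt
              rw [Finset.mem_coe, Finset.mem_filter, Finset.mem_filter] at ht ht'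
              funext c
              by_cases hc : c = b
              · subst hc; exact htt
              · have h1 := congrFun ht.2 c
                have h2 := congrFun ht'.2 c
                rw [Function.update_of_ne hc] at h1 h2
                rw [h1, h2]
        _ ≤ (s a).card * Δ b := meet_count (hΔ b) (s a)
        _ = j a * Δ b := by rw [hj a _ hsa])
  have hprod : (Fintype.piFinset (Function.update F b {B0})).card =
      ∏ c ∈ univ.erase b, (F c).card := by
    rw [Fintype.card_piFinset, ← Finset.mul_prod_erase univ _ (Finset.mem_univ b),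
      Function.update_self, Finset.card_singleton, one_mul]
    apply Finset.prod_congr rfl
    intro c hc
    rw [Function.update_of_ne (Finset.ne_of_mem_erase hc)]
  rw [hprod] at hcard
  calc Fintype.card V * ((Fintype.piFinset F).filter (fun t => ¬ Disjoint (t a) (t b))).card ≤
      Fintype.card V * (j a * Δ b * ∏ c ∈ univ.erase b, (F c).card) :=
        Nat.mul_le_mul_left _ hcard
    _ ≤ Fintype.card V * (j a * Δ b * ∏ c ∈ univ.erase b, (Fintype.card V * Δ c)) := by
        gcongr with c hc
        exact hF c
    _ = j a * ((Fintype.card V * Δ b) * ∏ c ∈ univ.erase b, (Fintype.card V * Δ c)) := by ring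
    _ = j a * ∏ c, (Fintype.card V * Δ c) := by
        rw [Finset.mul_prod_erase univ (fun c => Fintype.card V * Δ c) (Finset.mem_univ b)]

/-- The main count: families of sets in the neighbourhoods. -/
theorem count {r : ℕ} {G : SimpleGraph V}
    (hfree : (completeBipartiteGraph (Fin r) (Fin r)).Free G)
    (F : A → Finset (Finset V)) (j Δ : A → ℕ)
    (hj : ∀ a, ∀ B ∈ F a, B.card = j a)
    (hΔ : ∀ a v, ((F a).filter (fun B => v ∈ B)).card ≤ Δ a)
    (hF : ∀ a, (F a).card ≤ Fintype.card V * Δ a) (hr : ∑ a, j a = r) :
    ∑ x : V, ∏ a, blocksIn G (F a) x ≤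
      r * (Fintype.card A + 1) * ∏ a, (Fintype.card V * Δ a) := by
  obtain ⟨S, hS⟩ : ∃ S, S = Fintype.piFinset F := ⟨_, rfl⟩
  obtain ⟨Q, hQ⟩ : ∃ Q, Q = ∏ a, (Fintype.card V * Δ a) := ⟨_, rfl⟩
  have h1 : ∀ x : V, ∏ a, blocksIn G (F a) x =
      (S.filter (fun t => ∀ a, t a ⊆ neighbours G x)).card := by
    intro x
    unfold blocksIn
    rw [← Fintype.card_piFinset]
    congr 1
    ext t
    rw [hS]
    simp only [Fintype.mem_piFinset, Finset.mem_filter]
    constructor
    · intro h; exact ⟨fun a => (h a).1, fun a => (h a).2⟩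
    · rintro ⟨h, h'⟩ a; exact ⟨h a, h' a⟩
  have h2 : ∑ x : V, ∏ a, blocksIn G (F a) x =
      ∑ t ∈ S, (univ.filter (fun x => ∀ a, t a ⊆ neighbours G x)).card := by
    simp_rw [h1, Finset.card_filter]
    exact Finset.sum_comm
  have hScard : S.card ≤ Q := by
    rw [hS, hQ, Fintype.card_piFinset]
    exact Finset.prod_le_prod' fun a _ => hF a
  obtain ⟨bad, hbad⟩ : ∃ bad, bad = S.filter (fun t => ∃ a b, a ≠ b ∧ ¬ Disjoint (t a) (t b)) :=
    ⟨_, rfl⟩
  have h3 : ∀ t ∈ S, (univ.filter (fun x => ∀ a, t a ⊆ neighbours G x)).card ≤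
      r + if t ∈ bad then Fintype.card V else 0 := by
    intro t ht
    by_cases hb : t ∈ bad
    · rw [if_pos hb]
      have : (univ.filter (fun x => ∀ a, t a ⊆ neighbours G x)).card ≤ Fintype.card V :=
        Finset.card_le_univ _
      omega
    · rw [if_neg hb, add_zero]
      have hdis : ∀ a b, a ≠ b → Disjoint (t a) (t b) := by
        intro a b hab
        by_contra hcon
        exact hb (by rw [hbad]; exact Finset.mem_filter.2 ⟨ht, a, b, hab, hcon⟩)
      have hcard : (univ.biUnion t).card = r := by
        rw [Finset.card_biUnion (fun a _ b _ hab => hdis a b hab), ← hr]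
        apply Finset.sum_congr rfl
        intro a _
        rw [hS] at ht
        exact hj a _ (Fintype.mem_piFinset.1 ht a)
      have := common_lt hfree (univ.biUnion t) hcard.ge
      refine le_trans (Finset.card_le_card ?_) this.le
      intro x hx
      rw [Finset.mem_filter] at hx ⊢
      refine ⟨hx.1, ?_⟩
      rw [Finset.biUnion_subset]
      exact fun a _ => hx.2 a
  have h4 : Fintype.card V * bad.card ≤ (∑ a, ∑ _b : A, j a) * Q := by
    have hsub : bad ⊆ (univ : Finset (A × A)).biUnion (fun p => if p.1 ≠ p.2 then
        S.filter (fun t => ¬ Disjoint (t p.1) (t p.2)) else ∅) := by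
      intro t ht
      rw [hbad] at ht
      obtain ⟨ht, a, b, hab, hd⟩ := Finset.mem_filter.1 ht
      rw [Finset.mem_biUnion]
      refine ⟨(a, b), Finset.mem_univ _, ?_⟩
      rw [if_pos hab]
      exact Finset.mem_filter.2 ⟨ht, hd⟩
    calc Fintype.card V * bad.card ≤ Fintype.card V * ∑ p : A × A, (if p.1 ≠ p.2 then
        S.filter (fun t => ¬ Disjoint (t p.1) (t p.2)) else ∅).card :=
          Nat.mul_le_mul_left _ ((Finset.card_le_card hsub).trans Finset.card_biUnion_le)
      _ = ∑ p : A × A, Fintype.card V * (if p.1 ≠ p.2 then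
        S.filter (fun t => ¬ Disjoint (t p.1) (t p.2)) else ∅).card := Finset.mul_sum _ _ _
      _ ≤ ∑ p : A × A, j p.1 * Q := by
          apply Finset.sum_le_sum
          intro p _
          by_cases hp : p.1 ≠ p.2
          · rw [if_pos hp, hS, hQ]
            exact bad_pair F j Δ hj hΔ hF hp
          · rw [if_neg hp]; simp
      _ = (∑ a, ∑ _b : A, j a) * Q := by
          rw [← Finset.sum_mul, Fintype.sum_prod_type]
  calc ∑ x : V, ∏ a, blocksIn G (F a) x =
      ∑ t ∈ S, (univ.filter (fun x => ∀ a, t a ⊆ neighbours G x)).card := h2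
    _ ≤ ∑ t ∈ S, (r + if t ∈ bad then Fintype.card V else 0) := Finset.sum_le_sum h3
    _ = r * S.card + Fintype.card V * bad.card := by
        rw [Finset.sum_add_distrib, Finset.sum_const, smul_eq_mul, ← Finset.sum_filter,
          Finset.sum_const, smul_eq_mul]
        have : S.filter (fun t => t ∈ bad) = bad := by
          ext t
          rw [Finset.mem_filter, hbad, Finset.mem_filter]
          tauto
        rw [this]; ring
    _ ≤ r * Q + (∑ a, ∑ _b : A, j a) * Q := by gcongr
    _ = r * (Fintype.card A + 1) * Q := by
        simp only [Finset.sum_const, Finset.card_univ, smul_eq_mul]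
        rw [← Finset.mul_sum, hr]; ring
    _ = _ := by rw [hQ]

end Families

end Pool.Agent.K7.H42.KR
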