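import Mathlib
import Pool.Agent.K7.H42.KR.Count

/-!
Graphs without `K_{r,r}`: moments of the number of blocks in the neighbourhoods, and the number of
the edges `x y` for which `x` has another neighbour close to `y`.
-/

set_option autoImplicit false

namespace Pool.Agent.K7.H42.KR

open Finset Classical

variable {V : Type} [Fintype V]

theorem blocksIn_singletons (G : SimpleGraph V) (x : V) :
    blocksIn G ((univ : Finset V).image (fun v => ({v} : Finset V))) x = (neighbours G x).card := by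
  unfold blocksIn
  have : (((univ : Finset V).image (fun v => ({v} : Finset V))).filter
      (fun B => B ⊆ neighbours G x)) = (neighbours G x).image (fun v => ({v} : Finset V)) := by
    ext B
    simp only [Finset.mem_filter, Finset.mem_image, Finset.mem_univ, true_and]
    constructor
    · rintro ⟨⟨v, rfl⟩, h⟩
      exact ⟨v, Finset.singleton_subset_iff.1 h, rfl⟩
    · rintro ⟨v, hv, rfl⟩
      exact ⟨⟨v, rfl⟩, Finset.singleton_subset_iff.2 hv⟩
  rw [this, Finset.card_image_of_injective _ Finset.singleton_injective]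

theorem card_family {F : Finset (Finset V)} {j Δ : ℕ} (hj1 : 1 ≤ j) (hj : ∀ B ∈ F, B.card = j)
    (hΔ : ∀ v, (F.filter (fun B => v ∈ B)).card ≤ Δ) : F.card ≤ Fintype.card V * Δ := by
  calc F.card = ∑ B ∈ F, 1 := by simp
    _ ≤ ∑ B ∈ F, B.card := by
        apply Finset.sum_le_sum
        intro B hB
        rw [hj B hB]; exact hj1
    _ = ∑ B ∈ F, ∑ v : V, (if v ∈ B then 1 else 0) := by
        apply Finset.sum_congr rfl
        intro B _
        simp
    _ = ∑ v : V, (F.filter (fun B => v ∈ B)).card := by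
        rw [Finset.sum_comm]
        apply Finset.sum_congr rfl
        intro v _
        rw [Finset.card_filter]
    _ ≤ ∑ _v : V, Δ := Finset.sum_le_sum fun v _ => hΔ v
    _ = Fintype.card V * Δ := by simp

/-- Moments of the number of the blocks in the neighbourhoods. -/
theorem moment {r : ℕ} {G : SimpleGraph V}
    (hfree : (completeBipartiteGraph (Fin r) (Fin r)).Free G)
    {F : Finset (Finset V)} {j Δ k l : ℕ} (hj1 : 1 ≤ j) (hj : ∀ B ∈ F, B.card = j)
    (hΔ : ∀ v, (F.filter (fun B => v ∈ B)).card ≤ Δ) (hr : j * k + l = r) :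
    ∑ x : V, blocksIn G F x ^ k * (neighbours G x).card ^ l ≤
      r * (r + 1) * (Δ ^ k * Fintype.card V ^ (k + l)) := by
  have h := count (A := Fin k ⊕ Fin l) hfree
    (Sum.elim (fun _ => F) (fun _ => (univ : Finset V).image (fun v => ({v} : Finset V))))
    (Sum.elim (fun _ => j) (fun _ => 1)) (Sum.elim (fun _ => Δ) (fun _ => 1))
    (by
      rintro (a | a) B hB
      · exact hj B hB
      · simp only [Sum.elim_inr, Finset.mem_image] at hB ⊢
        obtain ⟨v, _, rfl⟩ := hB
        simp)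
    (by
      rintro (a | a) v
      · exact hΔ v
      · simp only [Sum.elim_inr]
        rw [Finset.card_le_one]
        intro B hB B' hB'
        rw [Finset.mem_filter, Finset.mem_image] at hB hB'
        obtain ⟨⟨w, _, rfl⟩, hw⟩ := hB
        obtain ⟨⟨w', _, rfl⟩, hw'⟩ := hB'
        rw [Finset.mem_singleton] at hw hw'
        rw [← hw, ← hw'])
    (by
      rintro (a | a)
      · exact card_family hj1 hj hΔ
      · simp only [Sum.elim_inr, mul_one]
        exact Finset.card_image_le.trans (by simp))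
    (by
      rw [Fintype.sum_sum_type]
      simp only [Sum.elim_inl, Sum.elim_inr, Finset.sum_const, Finset.card_univ, Fintype.card_fin,
        smul_eq_mul]
      linarith)
  simp only [Fintype.prod_sum_type, Sum.elim_inl, Sum.elim_inr, Finset.prod_const,
    Finset.card_univ, Fintype.card_fin, Fintype.card_sum, blocksIn_singletons] at h
  refine h.trans ?_
  have h1 : k + l + 1 ≤ r + 1 := by
    have : k ≤ j * k := Nat.le_mul_of_pos_left k hj1
    omega
  calc r * (k + l + 1) * ((Fintype.card V * Δ) ^ k * (Fintype.card V * 1) ^ l) ≤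
      r * (r + 1) * ((Fintype.card V * Δ) ^ k * (Fintype.card V * 1) ^ l) := by gcongr
    _ = _ := by rw [mul_one, mul_pow, pow_add]; ring

/-- The ordered pairs `(x, y)` of adjacent vertices of `G` such that `x` has another neighbour
which is adjacent to `y` in `H`. -/
noncomputable def soft (G H : SimpleGraph V) : Finset (V × V) :=
  univ.filter (fun p => G.Adj p.1 p.2 ∧ ∃ y, H.Adj p.2 y ∧ G.Adj p.1 y)

/-- The edges of `H` as sets. -/
noncomputable def edgeSets (H : SimpleGraph V) : Finset (Finset V) :=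
  univ.filter (fun B => ∃ y y', H.Adj y y' ∧ B = {y, y'})

theorem edgeSets_card {H : SimpleGraph V} : ∀ B ∈ edgeSets H, B.card = 2 := by
  intro B hB
  obtain ⟨y, y', h, rfl⟩ := (Finset.mem_filter.1 hB).2
  exact Finset.card_pair h.ne

theorem edgeSets_deg {H : SimpleGraph V} {Δ : ℕ} (hΔ : ∀ y, (neighbours H y).card ≤ Δ) (v : V) :
    ((edgeSets H).filter (fun B => v ∈ B)).card ≤ Δ := by
  refine le_trans ?_ (hΔ v)
  calc ((edgeSets H).filter (fun B => v ∈ B)).card ≤
      ((neighbours H v).image (fun y => ({v, y} : Finset V))).card := by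
        apply Finset.card_le_card
        intro B hB
        obtain ⟨hB, hv⟩ := Finset.mem_filter.1 hB
        obtain ⟨y, y', h, rfl⟩ := (Finset.mem_filter.1 hB).2
        rw [Finset.mem_insert, Finset.mem_singleton] at hv
        rcases hv with rfl | rfl
        · exact Finset.mem_image.2 ⟨y', mem_neighbours.2 h, rfl⟩
        · exact Finset.mem_image.2 ⟨y, mem_neighbours.2 h.symm, Finset.pair_comm _ _⟩
    _ ≤ _ := Finset.card_image_le

theorem soft_row (G H : SimpleGraph V) (x : V) :
    (univ.filter (fun y => (x, y) ∈ soft G H)).card ≤ 2 * blocksIn G (edgeSets H) x := by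
  have h1 : univ.filter (fun y => (x, y) ∈ soft G H) ⊆
      ((edgeSets H).filter (fun B => B ⊆ neighbours G x)).biUnion id := by
    intro y hy
    obtain ⟨ha, y', h1, h2⟩ := (Finset.mem_filter.1 (Finset.mem_filter.1 hy).2).2
    rw [Finset.mem_biUnion]
    refine ⟨{y, y'}, ?_, by simp⟩
    rw [Finset.mem_filter]
    refine ⟨Finset.mem_filter.2 ⟨Finset.mem_univ _, y, y', h1, rfl⟩, ?_⟩
    intro z hz
    rw [Finset.mem_insert, Finset.mem_singleton] at hz
    rcases hz with rfl | rfl
    · exact mem_neighbours.2 ha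
    · exact mem_neighbours.2 h2
  refine (Finset.card_le_card h1).trans (Finset.card_biUnion_le.trans ?_)
  unfold blocksIn
  rw [mul_comm, ← smul_eq_mul, ← Finset.sum_const]
  apply Finset.sum_le_sum
  intro B hB
  exact (edgeSets_card B (Finset.mem_filter.1 hB).1).le

theorem soft_row' (G H : SimpleGraph V) (x : V) :
    (univ.filter (fun y => (x, y) ∈ soft G H)).card ≤ (neighbours G x).card := by
  apply Finset.card_le_card
  intro y hy
  exact mem_neighbours.2 (Finset.mem_filter.1 (Finset.mem_filter.1 hy).2).2.1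

theorem soft_card (G H : SimpleGraph V) :
    (soft G H).card = ∑ x : V, (univ.filter (fun y => (x, y) ∈ soft G H)).card := by
  rw [Finset.card_eq_sum_card_fiberwise (f := Prod.fst) (t := univ) (fun _ _ => Finset.mem_univ _)]
  apply Finset.sum_congr rfl
  intro x _
  apply Finset.card_bij (fun p _ => p.2)
  · rintro ⟨a, b⟩ hp
    obtain ⟨hp1, hp2⟩ := Finset.mem_filter.1 hp
    simp only at hp2
    subst hp2
    exact Finset.mem_filter.2 ⟨Finset.mem_univ _, hp1⟩
  · rintro ⟨a, b⟩ hp ⟨a', b'⟩ hp' h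
    have h1 := (Finset.mem_filter.1 hp).2
    have h2 := (Finset.mem_filter.1 hp').2
    simp only at h h1 h2
    rw [h1, h2, h]
  · intro y hy
    exact ⟨(x, y), Finset.mem_filter.2 ⟨(Finset.mem_filter.1 hy).2, rfl⟩, rfl⟩

/-- Power mean. -/
theorem power_mean {ι : Type} (s : Finset ι) (f : ι → ℝ) (hf : ∀ i ∈ s, 0 ≤ f i) {k : ℕ}
    (hk : 1 ≤ k) {n : ℝ} (hn : (s.card : ℝ) ≤ n) :
    (∑ i ∈ s, f i) ^ k ≤ n ^ (k - 1) * ∑ i ∈ s, f i ^ k := by
  obtain ⟨k, rfl⟩ : ∃ k', k = k' + 1 := ⟨k - 1, by omega⟩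
  have h1 : (∑ i ∈ s, f i) ^ (k + 1) ≤ (s.card : ℝ) ^ k * ∑ i ∈ s, f i ^ (k + 1) :=
    pow_sum_le_card_mul_sum_pow hf k
  refine h1.trans ?_
  rw [Nat.add_sub_cancel]
  have : 0 ≤ ∑ i ∈ s, f i ^ (k + 1) := Finset.sum_nonneg fun i hi => pow_nonneg (hf i hi) _
  gcongr

/-- All edges. -/
theorem edges_bound {r : ℕ} (hr : 1 ≤ r) {G : SimpleGraph V}
    (hfree : (completeBipartiteGraph (Fin r) (Fin r)).Free G) {u : ℝ} (hu : 0 < u)
    (hn : (Fintype.card V : ℝ) = u ^ r) :
    ∑ x : V, ((neighbours G x).card : ℝ) ≤ r * (r + 1) * u ^ (2 * r - 1) := by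
  have h := moment hfree (F := (univ : Finset V).image (fun v => ({v} : Finset V)))
    (j := 1) (Δ := 1) (k := r) (l := 0) le_rfl
    (by
      intro B hB
      obtain ⟨v, _, rfl⟩ := Finset.mem_image.1 hB
      simp)
    (by
      intro v
      rw [Finset.card_le_one]
      intro B hB B' hB'
      rw [Finset.mem_filter, Finset.mem_image] at hB hB'
      obtain ⟨⟨w, _, rfl⟩, hw⟩ := hB
      obtain ⟨⟨w', _, rfl⟩, hw'⟩ := hB'
      rw [Finset.mem_singleton] at hw hw'
      rw [← hw, ← hw'])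
    (by omega)
  simp only [blocksIn_singletons, pow_zero, mul_one, one_pow, one_mul, add_zero] at h
  have h' : ∑ x : V, ((neighbours G x).card : ℝ) ^ r ≤ r * (r + 1) * (Fintype.card V : ℝ) ^ r := by
    exact_mod_cast h
  have hC : (1 : ℝ) ≤ r * (r + 1) := by
    have : (1 : ℝ) ≤ r := by exact_mod_cast hr
    nlinarith
  have h2 := power_mean (univ : Finset V) (fun x => ((neighbours G x).card : ℝ))
    (fun x _ => Nat.cast_nonneg _) hr (n := (Fintype.card V : ℝ)) (by simp)
  have h3 : (∑ x : V, ((neighbours G x).card : ℝ)) ^ r ≤ (r * (r + 1) * u ^ (2 * r - 1)) ^ r := by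
    calc _ ≤ (Fintype.card V : ℝ) ^ (r - 1) * (r * (r + 1) * (Fintype.card V : ℝ) ^ r) :=
          h2.trans (by gcongr)
      _ = (r * (r + 1)) * (u ^ (2 * r - 1)) ^ r := by
          rw [hn, ← pow_mul, ← pow_mul, ← pow_mul, mul_left_comm, ← pow_add]
          congr 2
          obtain ⟨k, rfl⟩ : ∃ k, r = k + 1 := ⟨r - 1, by omega⟩
          rw [Nat.add_sub_cancel, show 2 * (k + 1) - 1 = 2 * k + 1 by omega]
          ring
      _ ≤ (r * (r + 1)) ^ r * (u ^ (2 * r - 1)) ^ r := by
          apply mul_le_mul_of_nonneg_right _ (by positivity)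
          exact le_self_pow₀ hC (by omega)
      _ = _ := by rw [mul_pow, mul_pow, mul_pow]
  exact le_of_pow_le_pow_left₀ (by omega) (by positivity) h3

theorem soft_bound {r : ℕ} (hr : 2 ≤ r) {G : SimpleGraph V}
    (hfree : (completeBipartiteGraph (Fin r) (Fin r)).Free G) (H : SimpleGraph V) {Δ : ℕ}
    (hΔ : ∀ y, (neighbours H y).card ≤ Δ) {u s : ℝ} (hu : 0 < u)
    (hn : (Fintype.card V : ℝ) = u ^ r) (hs0 : 0 ≤ s) (hs : (Δ : ℝ) = s ^ 2 * u) :
    ((soft G H).card : ℝ) ≤ (2 * (r * (r + 1)) + 1) * s * u ^ (2 * r - 1) := by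
  have hr0 : (2 : ℝ) ≤ r := by exact_mod_cast hr
  obtain ⟨C, hC⟩ : ∃ C : ℝ, C = r * (r + 1) := ⟨_, rfl⟩
  have hC1 : (1 : ℝ) ≤ C := by rw [hC]; nlinarith
  have hC0 : 0 < C := by linarith
  have hsum : ((soft G H).card : ℝ) =
      ∑ x : V, ((univ.filter (fun y => (x, y) ∈ soft G H)).card : ℝ) := by
    rw [soft_card]; push_cast; rfl
  rw [← hC]
  have hu2 : 0 < u ^ (2 * r - 1) := by positivity
  by_cases hs1 : 1 ≤ s
  · have h1 := edges_bound (by omega) hfree hu hn
    rw [← hC] at h1
    calc ((soft G H).card : ℝ) ≤ ∑ x : V, ((neighbours G x).card : ℝ) := by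
          rw [hsum]
          apply Finset.sum_le_sum
          intro x _
          exact_mod_cast soft_row' G H x
      _ ≤ C * u ^ (2 * r - 1) := h1
      _ ≤ (2 * C + 1) * s * u ^ (2 * r - 1) := by
          apply mul_le_mul_of_nonneg_right _ hu2.le
          nlinarith
  push Not at hs1
  rcases hs0.eq_or_lt with hs2 | hs2
  · -- no edges of `H`
    have hΔ0 : Δ = 0 := by
      rw [← hs2] at hs
      have : (Δ : ℝ) = 0 := by rw [hs]; ring
      exact_mod_cast this
    have : soft G H = ∅ := by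
      rw [Finset.eq_empty_iff_forall_notMem]
      intro p hp
      obtain ⟨_, y', h1, _⟩ := (Finset.mem_filter.1 hp).2
      have h2 := hΔ p.2
      rw [hΔ0] at h2
      have h3 : y' ∈ neighbours H p.2 := mem_neighbours.2 h1
      rw [Finset.card_eq_zero.1 (Nat.le_zero.1 h2)] at h3
      simp at h3
    rw [this, ← hs2]; simp
  -- the main case
  obtain ⟨b, hb⟩ : ∃ b : V → ℝ, b = fun x => (blocksIn G (edgeSets H) x : ℝ) := ⟨_, rfl⟩
  obtain ⟨d, hd⟩ : ∃ d : V → ℝ, d = fun x => ((neighbours G x).card : ℝ) := ⟨_, rfl⟩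
  have hb0 : ∀ x, 0 ≤ b x := fun x => by rw [hb]; exact Nat.cast_nonneg _
  have hd0 : ∀ x, 0 ≤ d x := fun x => by rw [hd]; exact Nat.cast_nonneg _
  obtain ⟨D, hD⟩ : ∃ D : ℝ, D = s * u ^ (r - 1) := ⟨_, rfl⟩
  have hD0 : 0 < D := by rw [hD]; positivity
  obtain ⟨X, hX⟩ : ∃ X : Finset V, X = univ.filter (fun x => D ≤ d x) := ⟨_, rfl⟩
  obtain ⟨T, hT⟩ : ∃ T : ℝ, T = ∑ x ∈ X, b x := ⟨_, rfl⟩
  have hT0 : 0 ≤ T := by rw [hT]; exact Finset.sum_nonneg fun x _ => hb0 x
  obtain ⟨k, l, hkl, hk, hl⟩ : ∃ k l : ℕ, 2 * k + l = r ∧ 1 ≤ k ∧ (l = 0 ∨ l = 1) :=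
    ⟨r / 2, r % 2, by omega, by omega, by omega⟩
  have hmom : ∑ x : V, b x ^ k * d x ^ l ≤ C * ((Δ : ℝ) ^ k * (u ^ r) ^ (k + l)) := by
    have h := moment hfree (F := edgeSets H) (j := 2) (Δ := Δ) (k := k) (l := l) (by norm_num)
      edgeSets_card (edgeSets_deg hΔ) hkl
    rw [← hn, hC, hb, hd]
    simp only
    exact_mod_cast h
  have hmain : T ^ k * D ^ l ≤ C * ((s ^ 2 * u) ^ k * u ^ (r * (r - 1))) := by
    have h2 := power_mean X b (fun x _ => hb0 x) hk (n := u ^ r) (by
      rw [← hn]; exact_mod_cast Finset.card_le_univ _)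
    rw [← hT] at h2
    calc T ^ k * D ^ l ≤ ((u ^ r) ^ (k - 1) * ∑ x ∈ X, b x ^ k) * D ^ l := by gcongr
      _ = (u ^ r) ^ (k - 1) * ∑ x ∈ X, b x ^ k * D ^ l := by rw [mul_assoc, Finset.sum_mul]
      _ ≤ (u ^ r) ^ (k - 1) * ∑ x ∈ X, b x ^ k * d x ^ l := by
          apply mul_le_mul_of_nonneg_left _ (by positivity)
          apply Finset.sum_le_sum
          intro x hx
          rw [hX] at hx
          have h3 := (Finset.mem_filter.1 hx).2
          have h4 := hb0 x
          gcongr
      _ ≤ (u ^ r) ^ (k - 1) * ∑ x : V, b x ^ k * d x ^ l := by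
          apply mul_le_mul_of_nonneg_left _ (by positivity)
          apply Finset.sum_le_sum_of_subset_of_nonneg (Finset.subset_univ _)
          intro x _ _
          exact mul_nonneg (pow_nonneg (hb0 x) _) (pow_nonneg (hd0 x) _)
      _ ≤ (u ^ r) ^ (k - 1) * (C * ((Δ : ℝ) ^ k * (u ^ r) ^ (k + l))) := by gcongr
      _ = _ := by
          rw [hs, mul_left_comm, mul_left_comm ((u ^ r) ^ (k - 1)), ← pow_mul, ← pow_mul, ← pow_add]
          congr 4
          rw [← mul_add]
          congr 1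
          omega
  have hTk : T ^ k ≤ (C * (s * u ^ (2 * r - 1))) ^ k := by
    have hCk : C ≤ C ^ k := le_self_pow₀ hC1 (by omega)
    rcases hl with rfl | rfl
    · rw [pow_zero, mul_one] at hmain
      refine hmain.trans ?_
      have e1 : (s ^ 2 * u) ^ k * u ^ (r * (r - 1)) = s ^ (2 * k) * (u ^ (2 * r - 1)) ^ k := by
        rw [mul_pow, ← pow_mul, ← pow_mul, mul_assoc, ← pow_add]
        congr 2
        obtain ⟨k, rfl⟩ : ∃ k', k = k' + 1 := ⟨k - 1, by omega⟩
        subst hkl
        rw [show 2 * (k + 1) + 0 - 1 = 2 * k + 1 by omega,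
          show 2 * (2 * (k + 1) + 0) - 1 = 4 * k + 3 by omega]
        ring
      have e2 : s ^ (2 * k) ≤ s ^ k := pow_le_pow_of_le_one hs0 hs1.le (by omega)
      rw [e1, mul_pow, mul_pow]
      gcongr
    · rw [pow_one, hD] at hmain
      have e1 : (s ^ 2 * u) ^ k * u ^ (r * (r - 1)) =
          (s ^ (2 * k - 1) * (u ^ (2 * r - 1)) ^ k) * (s * u ^ (r - 1)) := by
        have : s ^ (2 * k - 1) * (u ^ (2 * r - 1)) ^ k * (s * u ^ (r - 1)) =
            (s ^ (2 * k - 1) * s) * ((u ^ (2 * r - 1)) ^ k * u ^ (r - 1)) := by ring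
        rw [this, ← pow_succ, ← pow_mul, ← pow_add, mul_pow, ← pow_mul, mul_assoc, ← pow_add]
        obtain ⟨k, rfl⟩ : ∃ k', k = k' + 1 := ⟨k - 1, by omega⟩
        subst hkl
        rw [show 2 * (k + 1) - 1 + 1 = 2 * (k + 1) by omega]
        congr 2
        rw [show 2 * (k + 1) + 1 - 1 = 2 * k + 2 by omega,
          show 2 * (2 * (k + 1) + 1) - 1 = 4 * k + 5 by omega]
        ring
      rw [e1, ← mul_assoc C] at hmain
      have h5 : T ^ k ≤ C * (s ^ (2 * k - 1) * (u ^ (2 * r - 1)) ^ k) :=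
        le_of_mul_le_mul_right hmain (by positivity)
      refine h5.trans ?_
      have e2 : s ^ (2 * k - 1) ≤ s ^ k := pow_le_pow_of_le_one hs0 hs1.le (by omega)
      rw [mul_pow, mul_pow]
      gcongr
  have hTle : T ≤ C * (s * u ^ (2 * r - 1)) :=
    le_of_pow_le_pow_left₀ (by omega) (by positivity) hTk
  have hrow : ∀ x : V, ((univ.filter (fun y => (x, y) ∈ soft G H)).card : ℝ) ≤
      (if x ∈ X then 2 * b x else 0) + D := by
    intro x
    by_cases hx : x ∈ X
    · rw [if_pos hx]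
      have h1 : ((univ.filter (fun y => (x, y) ∈ soft G H)).card : ℝ) ≤ 2 * b x := by
        rw [hb]
        simp only
        exact_mod_cast soft_row G H x
      linarith
    · rw [if_neg hx]
      have h1 : ((univ.filter (fun y => (x, y) ∈ soft G H)).card : ℝ) ≤ d x := by
        rw [hd]
        simp only
        exact_mod_cast soft_row' G H x
      have h2 : ¬ D ≤ d x := fun h => hx (by rw [hX]; exact Finset.mem_filter.2 ⟨Finset.mem_univ _, h⟩)
      push Not at h2
      linarith
  calc ((soft G H).card : ℝ) ≤ ∑ x : V, ((if x ∈ X then 2 * b x else 0) + D) := by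
        rw [hsum]; exact Finset.sum_le_sum fun x _ => hrow x
    _ = 2 * T + u ^ r * D := by
        rw [Finset.sum_add_distrib, Finset.sum_const, nsmul_eq_mul, Finset.card_univ, hn,
          ← Finset.sum_filter, ← Finset.mul_sum, hT]
        congr 3
        ext x; simp
    _ ≤ 2 * (C * (s * u ^ (2 * r - 1))) + s * u ^ (2 * r - 1) := by
        have e3 : u ^ r * D = s * u ^ (2 * r - 1) := by
          rw [hD, mul_left_comm, ← pow_add]
          congr 2
          omega
        rw [e3]
        linarith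
    _ = _ := by ring

end Pool.Agent.K7.H42.KR
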