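import Mathlib
import Pool.Agent.K7.H42.KR.Soft

/-!
Graphs without `K_{r,r}` on words: certificates, boxes, Hamming balls.
-/

set_option autoImplicit false

namespace Pool.Agent.K7.H42.KR

open Finset Classical

section General
variable {V : Type} [Fintype V]

/-- The ordered pairs of adjacent vertices. -/
noncomputable def pairs (G : SimpleGraph V) : Finset (V × V) := univ.filter (fun p => G.Adj p.1 p.2)

theorem pairs_card (G : SimpleGraph V) : (pairs G).card = 2 * Nat.card G.edgeSet := by
  have h1 : (pairs G).card = ∑ x : V, G.degree x := by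
    unfold pairs
    rw [Finset.card_eq_sum_card_fiberwise (f := Prod.fst) (t := univ)
      (fun _ _ => Finset.mem_univ _)]
    apply Finset.sum_congr rfl
    intro x _
    rw [← SimpleGraph.card_neighborFinset_eq_degree]
    apply Finset.card_bij (fun p _ => p.2)
    · rintro ⟨a, b⟩ hp
      rw [Finset.mem_filter, Finset.mem_filter] at hp
      obtain ⟨⟨_, hp1⟩, hp2⟩ := hp
      simp only at hp1 hp2
      subst hp2
      simpa using hp1
    · rintro ⟨a, b⟩ hp ⟨a', b'⟩ hp' h
      have h1 := (Finset.mem_filter.1 hp).2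
      have h2 := (Finset.mem_filter.1 hp').2
      simp only at h h1 h2
      rw [h1, h2, h]
    · intro y hy
      refine ⟨(x, y), ?_, rfl⟩
      rw [Finset.mem_filter, Finset.mem_filter]
      exact ⟨⟨Finset.mem_univ _, by simpa using hy⟩, rfl⟩
  rw [h1, SimpleGraph.sum_degrees_eq_twice_card_edges, Nat.card_eq_fintype_card,
    ← SimpleGraph.edgeFinset_card]

theorem rpow_conv {n : ℝ} (hn : 0 ≤ n) {r : ℕ} (hr : 1 ≤ r) :
    n ^ (2 - 1 / (r : ℝ)) = (n ^ (1 / (r : ℝ))) ^ (2 * r - 1) ∧ n = (n ^ (1 / (r : ℝ))) ^ r := by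
  have hr0 : (0 : ℝ) < r := by exact_mod_cast hr
  constructor
  · rw [← Real.rpow_natCast, ← Real.rpow_mul hn]
    congr 1
    rw [Nat.cast_sub (by omega)]
    push_cast
    field_simp
  · rw [← Real.rpow_natCast, ← Real.rpow_mul hn, one_div, inv_mul_cancel₀ hr0.ne', Real.rpow_one]

/-- the bound with real exponents -/
theorem soft_rpow {r : ℕ} (hr : 2 ≤ r) {G : SimpleGraph V}
    (hfree : (completeBipartiteGraph (Fin r) (Fin r)).Free G) (H : SimpleGraph V) {Δ : ℕ}
    (hΔ : ∀ y, (neighbours H y).card ≤ Δ) :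
    ((soft G H).card : ℝ) ≤ (2 * (r * (r + 1)) + 1) *
      √(Δ / (Fintype.card V : ℝ) ^ (1 / (r : ℝ))) * (Fintype.card V : ℝ) ^ (2 - 1 / (r : ℝ)) := by
  rcases isEmpty_or_nonempty V with hV | hV
  · have : soft G H = ∅ := by
      rw [Finset.eq_empty_iff_forall_notMem]
      intro p _
      exact hV.false p.1
    rw [this]
    have : (0 : ℝ) ≤ (2 * (r * (r + 1)) + 1) * √(Δ / (Fintype.card V : ℝ) ^ (1 / (r : ℝ))) *
      (Fintype.card V : ℝ) ^ (2 - 1 / (r : ℝ)) := by positivity
    simpa using this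
  have hn0 : (0 : ℝ) < Fintype.card V := by exact_mod_cast Fintype.card_pos
  obtain ⟨u, hu⟩ : ∃ u : ℝ, u = (Fintype.card V : ℝ) ^ (1 / (r : ℝ)) := ⟨_, rfl⟩
  have hu0 : 0 < u := by rw [hu]; positivity
  obtain ⟨h1, h2⟩ := rpow_conv hn0.le (r := r) (by omega)
  rw [h1, ← hu]
  refine soft_bound hr hfree H hΔ hu0 (by rw [hu]; exact h2) (Real.sqrt_nonneg _) ?_
  rw [Real.sq_sqrt (by positivity)]
  field_simp

/-- for graphs with many edges -/
theorem soft_extremal {r : ℕ} (hr : 2 ≤ r) {c η : ℝ} (hc : 0 < c) (hη : 0 < η) :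
    ∃ K : ℝ, 0 < K ∧ ∀ (V : Type) [Fintype V] (G H : SimpleGraph V) (Δ : ℕ),
      (completeBipartiteGraph (Fin r) (Fin r)).Free G → (∀ y, (neighbours H y).card ≤ Δ) →
      K * Δ ≤ (Fintype.card V : ℝ) ^ (1 / (r : ℝ)) →
      c * (Fintype.card V : ℝ) ^ (2 - 1 / (r : ℝ)) ≤ Nat.card G.edgeSet →
      ((soft G H).card : ℝ) ≤ η * (pairs G).card := by
  obtain ⟨M, hM⟩ : ∃ M : ℝ, M = 2 * (r * (r + 1)) + 1 := ⟨_, rfl⟩
  have hM0 : 0 < M := by rw [hM]; positivity
  refine ⟨(M / (c * η)) ^ 2, by positivity, ?_⟩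
  intro V _ G H Δ hfree hΔ hK hG
  have h1 := soft_rpow hr hfree H hΔ
  rw [← hM] at h1
  have hP : ((pairs G).card : ℝ) = 2 * Nat.card G.edgeSet := by rw [pairs_card]; push_cast; ring
  obtain ⟨u, hu⟩ : ∃ u : ℝ, u = (Fintype.card V : ℝ) ^ (1 / (r : ℝ)) := ⟨_, rfl⟩
  have hu0 : 0 ≤ u := by rw [hu]; positivity
  obtain ⟨w, hw⟩ : ∃ w : ℝ, w = (Fintype.card V : ℝ) ^ (2 - 1 / (r : ℝ)) := ⟨_, rfl⟩
  have hw0 : 0 ≤ w := by rw [hw]; positivity
  rw [← hu, ← hw] at h1
  rw [← hu] at hK
  rw [← hw] at hG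
  have h2 : √(Δ / u) ≤ c * η / M := by
    apply Real.sqrt_le_iff.2
    refine ⟨by positivity, ?_⟩
    rcases hu0.eq_or_lt with h0 | h0
    · rw [← h0, div_zero]; positivity
    · rw [div_le_iff₀ h0]
      have h3 : (c * η / M) ^ 2 * ((M / (c * η)) ^ 2 * Δ) = Δ := by field_simp
      calc (Δ : ℝ) = (c * η / M) ^ 2 * ((M / (c * η)) ^ 2 * Δ) := h3.symm
        _ ≤ _ := by gcongr
  calc ((soft G H).card : ℝ) ≤ M * √(Δ / u) * w := h1
    _ ≤ M * (c * η / M) * w := by gcongr
    _ = η * (c * w) := by field_simp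
    _ ≤ η * Nat.card G.edgeSet := by gcongr
    _ ≤ η * (pairs G).card := by
        rw [hP]
        have : (0 : ℝ) ≤ Nat.card G.edgeSet := Nat.cast_nonneg _
        gcongr
        linarith

end General

section Words
variable {D : Type} [Fintype D] {m : ℕ}

/-- If `x'` agrees with `x` at the places in `A` and `y'` agrees with `y` at the places in `B` then
`x'` and `y'` are adjacent. -/
def Certificate (G : SimpleGraph (Fin m → D)) (x y : Fin m → D) (A B : Finset (Fin m)) : Prop :=
  ∀ x' y' : Fin m → D, (∀ i ∈ A, x' i = x i) → (∀ i ∈ B, y' i = y i) → G.Adj x' y'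

/-- The ordered pairs which have a certificate that does not read all letters of both words. -/
noncomputable def incomplete (G : SimpleGraph (Fin m → D)) :
    Finset ((Fin m → D) × (Fin m → D)) :=
  univ.filter (fun p => ∃ A B : Finset (Fin m), Certificate G p.1 p.2 A B ∧
    ¬ (A = univ ∧ B = univ))

/-- Two words are adjacent if they differ at one place only. -/
def oneLetter (D : Type) (m : ℕ) : SimpleGraph (Fin m → D) where
  Adj y y' := ∃ i a, y i ≠ a ∧ y' = Function.update y i a
  symm := ⟨by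
    rintro y y' ⟨i, a, h, rfl⟩
    refine ⟨i, y i, ?_, ?_⟩
    · rw [Function.update_self]; exact h.symm
    · simp⟩
  loopless := ⟨by
    rintro y ⟨i, a, h, h'⟩
    have := congrFun h' i
    rw [Function.update_self] at this
    exact h this⟩

theorem oneLetter_deg (y : Fin m → D) :
    (neighbours (oneLetter D m) y).card ≤ m * Fintype.card D := by
  calc (neighbours (oneLetter D m) y).card ≤
      ((univ : Finset (Fin m × D)).image (fun p => Function.update y p.1 p.2)).card := by
        apply Finset.card_le_card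
        intro y' hy'
        obtain ⟨i, a, _, rfl⟩ := mem_neighbours.1 hy'
        exact Finset.mem_image.2 ⟨(i, a), Finset.mem_univ _, rfl⟩
    _ ≤ (univ : Finset (Fin m × D)).card := Finset.card_image_le
    _ = m * Fintype.card D := by simp

theorem incomplete_card (G : SimpleGraph (Fin m → D)) (hD : 2 ≤ Fintype.card D) :
    (incomplete G).card ≤ 2 * (soft G (oneLetter D m)).card := by
  have hother : ∀ a : D, ∃ b, a ≠ b := by
    intro a
    have : Nontrivial D := Fintype.one_lt_card_iff_nontrivial.1 (by omega)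
    obtain ⟨b, hb⟩ := exists_ne a
    exact ⟨b, hb.symm⟩
  have hsub : incomplete G ⊆ soft G (oneLetter D m) ∪ (soft G (oneLetter D m)).image Prod.swap := by
    rintro ⟨x, y⟩ hp
    obtain ⟨A, B, hc, hAB⟩ := (Finset.mem_filter.1 hp).2
    have hadj : G.Adj x y := hc x y (fun _ _ => rfl) (fun _ _ => rfl)
    rw [Finset.mem_union]
    by_cases hB : B = univ
    · have hA : A ≠ univ := fun h => hAB ⟨h, hB⟩
      obtain ⟨i, hi⟩ : ∃ i, i ∉ A := by
        by_contra hcon
        push Not at hcon
        exact hA (Finset.eq_univ_of_forall hcon)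
      obtain ⟨b, hb⟩ := hother (x i)
      right
      refine Finset.mem_image.2 ⟨(y, x), Finset.mem_filter.2 ⟨Finset.mem_univ _, hadj.symm,
        Function.update x i b, ⟨i, b, hb, rfl⟩, ?_⟩, rfl⟩
      refine (hc (Function.update x i b) y ?_ (fun _ _ => rfl)).symm
      intro j hj
      have : j ≠ i := fun h => hi (h ▸ hj)
      rw [Function.update_of_ne this]
    · obtain ⟨i, hi⟩ : ∃ i, i ∉ B := by
        by_contra hcon
        push Not at hcon
        exact hB (Finset.eq_univ_of_forall hcon)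
      obtain ⟨b, hb⟩ := hother (y i)
      left
      refine Finset.mem_filter.2 ⟨Finset.mem_univ _, hadj,
        Function.update y i b, ⟨i, b, hb, rfl⟩, ?_⟩
      refine hc x (Function.update y i b) (fun _ _ => rfl) ?_
      intro j hj
      have : j ≠ i := fun h => hi (h ▸ hj)
      rw [Function.update_of_ne this]
  have h1 := (Finset.card_le_card hsub).trans (Finset.card_union_le _ _)
  have h2 : ((soft G (oneLetter D m)).image Prod.swap).card ≤ (soft G (oneLetter D m)).card :=
    Finset.card_image_le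
  omega

/-- A box: some letters of the two words are prescribed. -/
structure Box (D : Type) (m : ℕ) where
  A : Finset (Fin m)
  B : Finset (Fin m)
  a : Fin m → D
  b : Fin m → D

/-- The pair belongs to the box. -/
def Box.Mem (β : Box D m) (x y : Fin m → D) : Prop :=
  (∀ i ∈ β.A, x i = β.a i) ∧ (∀ i ∈ β.B, y i = β.b i)

/-- The adjacent pairs are exactly the pairs in the boxes. -/
def UnionOfBoxes (G : SimpleGraph (Fin m → D)) (L : ℕ) : Prop :=
  ∃ β : Fin L → Box D m, ∀ x y, G.Adj x y ↔ ∃ i, (β i).Mem x y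

theorem boxes_card {G : SimpleGraph (Fin m → D)} {L : ℕ} (h : UnionOfBoxes G L) :
    (pairs G).card ≤ L + (incomplete G).card := by
  obtain ⟨β, hβ⟩ := h
  have h1 : (pairs G \ incomplete G).card ≤ L := by
    have : (pairs G \ incomplete G) ⊆ (univ : Finset (Fin L)).image (fun i => ((β i).a, (β i).b)) := by
      rintro ⟨x, y⟩ hp
      obtain ⟨hp1, hp2⟩ := Finset.mem_sdiff.1 hp
      have hadj : G.Adj x y := (Finset.mem_filter.1 hp1).2
      obtain ⟨i, hi⟩ := (hβ x y).1 hadj
      have hfull : (β i).A = univ ∧ (β i).B = univ := by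
        by_contra hcon
        apply hp2
        refine Finset.mem_filter.2 ⟨Finset.mem_univ _, (β i).A, (β i).B, ?_, hcon⟩
        intro x' y' hx' hy'
        exact (hβ x' y').2 ⟨i, fun j hj => (hx' j hj).trans (hi.1 j hj),
          fun j hj => (hy' j hj).trans (hi.2 j hj)⟩
      refine Finset.mem_image.2 ⟨i, Finset.mem_univ _, ?_⟩
      rw [Prod.mk.injEq]
      constructor
      · funext j; exact (hi.1 j (by rw [hfull.1]; exact Finset.mem_univ _)).symm
      · funext j; exact (hi.2 j (by rw [hfull.2]; exact Finset.mem_univ _)).symm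
    calc _ ≤ ((univ : Finset (Fin L)).image (fun i => ((β i).a, (β i).b))).card :=
          Finset.card_le_card this
      _ ≤ (univ : Finset (Fin L)).card := Finset.card_image_le
      _ = L := by simp
  have h2 : (pairs G).card ≤ (pairs G \ incomplete G).card + (incomplete G).card :=
    Finset.card_le_card_sdiff_add_card
  omega

/-- The ordered pairs `(x, y)` of adjacent words such that another word at distance at most `a`
from `y` is also adjacent to `x`. -/
noncomputable def closePairs (G : SimpleGraph (Fin m → D)) (a : ℕ) :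
    Finset ((Fin m → D) × (Fin m → D)) :=
  univ.filter (fun p => G.Adj p.1 p.2 ∧ ∃ y, y ≠ p.2 ∧ hammingDist p.2 y ≤ a ∧ G.Adj p.1 y)

/-- Different words at distance at most `a`. -/
def near (D : Type) (m a : ℕ) : SimpleGraph (Fin m → D) where
  Adj y y' := y ≠ y' ∧ hammingDist y y' ≤ a
  symm := ⟨fun y y' h => ⟨h.1.symm, by rw [hammingDist_comm]; exact h.2⟩⟩
  loopless := ⟨fun _ h => h.1 rfl⟩

theorem closePairs_eq (G : SimpleGraph (Fin m → D)) (a : ℕ) :
    closePairs G a = soft G (near D m a) := by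
  ext p
  simp only [closePairs, soft, near, Finset.mem_filter, Finset.mem_univ, true_and]
  constructor
  · rintro ⟨h, y, h1, h2, h3⟩
    exact ⟨h, y, ⟨h1.symm, h2⟩, h3⟩
  · rintro ⟨h, y, ⟨h1, h2⟩, h3⟩
    exact ⟨h, y, h1.symm, h2, h3⟩

end Words

end Pool.Agent.K7.H42.KR
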